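import Mathlib

/-!
# MP_86f7a7_co / S09898 : common definitions (namespace `Pool.Agent.PFRTF`)
See `/team-store/MP_86f7a7_co_PROOF.md` for the paper proof.
-/

set_option autoImplicit false

namespace Pool.Agent.PFRTF

open scoped BigOperators

/-! ## Lattice part -/

/-- The congruence lattice `{x ∈ ℤⁿ : a·x ≡ 0 mod p}`. -/
def Lam (n p : ℕ) (a : Fin n → ZMod p) : Submodule ℤ (Fin n → ℤ) where
  carrier := {x | ∑ i, a i * ((x i : ℤ) : ZMod p) = 0}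
  zero_mem' := by simp
  add_mem' := by
    intro x y hx hy
    simp only [Set.mem_ofPred_eq, Pi.add_apply, Int.cast_add, mul_add, Finset.sum_add_distrib] at *
    rw [hx, hy, add_zero]
  smul_mem' := by
    intro c x hx
    simp only [Set.mem_ofPred_eq, Pi.smul_apply, smul_eq_mul, Int.cast_mul] at *
    have : ∑ i, a i * ((c : ZMod p) * ((x i : ℤ) : ZMod p))
        = (c : ZMod p) * ∑ i, a i * ((x i : ℤ) : ZMod p) := by
      rw [Finset.mul_sum]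
      refine Finset.sum_congr rfl (fun i _ => by ring)
    rw [this, hx, mul_zero]

/-- Saturation (pure closure) of a submodule of `ℤᵏ`. -/
def satur {k : ℕ} (S : Submodule ℤ (Fin k → ℤ)) : Submodule ℤ (Fin k → ℤ) where
  carrier := {x | ∃ N : ℤ, N ≠ 0 ∧ N • x ∈ S}
  zero_mem' := ⟨1, one_ne_zero, by simp⟩
  add_mem' := by
    rintro x y ⟨N, hN, hx⟩ ⟨M, hM, hy⟩
    refine ⟨N * M, mul_ne_zero hN hM, ?_⟩
    have h1 : (N * M) • x = M • (N • x) := by rw [smul_smul, mul_comm]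
    have h2 : (N * M) • y = N • (M • y) := by rw [smul_smul]
    rw [smul_add, h1, h2]
    exact S.add_mem (S.smul_mem _ hx) (S.smul_mem _ hy)
  smul_mem' := by
    rintro c x ⟨N, hN, hx⟩
    refine ⟨N, hN, ?_⟩
    rw [smul_comm]
    exact S.smul_mem _ hx

/-- (P1) no short vectors: `|x|₂² ≥ n m²/100` for `0 ≠ x ∈ Λ`. -/
def P1 (n m : ℕ) (Λ : Submodule ℤ (Fin n → ℤ)) : Prop :=
  ∀ x ∈ Λ, x ≠ 0 → (n : ℤ) * (m : ℤ) ^ 2 ≤ 100 * ∑ i, (x i) ^ 2

/-- (P2) for `d + h ≤ n` independent short vectors `y i ∈ Λ` (sup norm `≤ R1*m`), at most `N1` integer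
combinations have sup norm `≤ sq*R1*m` (`sq = √n`). -/
def P2 (n m R1 sq h N1 : ℕ) (Λ : Submodule ℤ (Fin n → ℤ)) : Prop :=
  ∀ (d : ℕ), d + h ≤ n → ∀ y : Fin d → (Fin n → ℤ), LinearIndependent ℤ y →
    (∀ i, y i ∈ Λ) → (∀ i j, |y i j| ≤ ((R1 * m : ℕ) : ℤ)) →
    ∀ C : Finset (Fin d → ℤ),
      (∀ c ∈ C, ∀ j, |∑ i, c i * y i j| ≤ ((sq * R1 * m : ℕ) : ℤ)) → C.card ≤ N1

/-- (P3) no certificate of large index: if `z : Fin d → ℤᵏ` (`d < n`) is independent of height `≤ E1`, and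
`w : ℤᵏ → ℤⁿ` is linear with `w (z i) ∈ Λ` independent and of sup norm `≤ R1*m`, then the saturation of
`span z` modulo `span z` has fewer than `I0` elements. -/
def P3 (n k m E1 R1 I0 : ℕ) (Λ : Submodule ℤ (Fin n → ℤ)) : Prop :=
  ∀ (d : ℕ), d < n → ∀ z : Fin d → (Fin k → ℤ), LinearIndependent ℤ z →
    (∀ i j, |z i j| ≤ (E1 : ℤ)) →
    ∀ w : (Fin k → ℤ) →ₗ[ℤ] (Fin n → ℤ), LinearIndependent ℤ (fun i => w (z i)) →
      (∀ i, w (z i) ∈ Λ) → (∀ i j, |w (z i) j| ≤ ((R1 * m : ℕ) : ℤ)) →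
      ∀ S : Finset (Fin k → ℤ),
        (∀ x ∈ S, x ∈ satur (Submodule.span ℤ (Set.range z))) →
        (∀ x ∈ S, ∀ y ∈ S, x - y ∈ Submodule.span ℤ (Set.range z) → x = y) →
        S.card < I0

/-- `Y(T) = {s ∈ ℤᵏ : |s|_∞ ≤ T, |w s|_∞ ≤ B T}`. -/
def YY {k n : ℕ} (w : (Fin k → ℤ) →ₗ[ℤ] (Fin n → ℤ)) (B T : ℕ) : Set (Fin k → ℤ) :=
  {s | (∀ i, |s i| ≤ (T : ℤ)) ∧ ∀ j, |w s j| ≤ ((B * T : ℕ) : ℤ)}

/-- `D` is pairwise incongruent modulo `2G`. -/
def Inc2 {M : Type} [AddCommGroup M] [Module ℤ M] (G : Submodule ℤ M) (D : Finset M) : Prop :=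
  ∀ x ∈ D, ∀ y ∈ D, (∃ g ∈ G, x - y = (2 : ℤ) • g) → x = y

/-- digit sum `∑_{l<L} 2^l f(l)` -/
def dsum {M : Type} [AddCommGroup M] [Module ℤ M] {L : ℕ} (f : Fin L → M) : M :=
  ∑ l : Fin L, ((2 : ℤ) ^ (l : ℕ)) • f l

/-! ## Entropy part -/

/-- Law of `f` under the weights `p`. -/
noncomputable def law {Ω S : Type} [Fintype Ω] [DecidableEq S] (p : Ω → ℝ) (f : Ω → S) : S → ℝ :=
  fun s => ∑ ω, if f ω = s then p ω else 0

/-- Shannon entropy (nats). -/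
noncomputable def Ent {S : Type} [Fintype S] (q : S → ℝ) : ℝ := ∑ s, Real.negMulLog (q s)

/-- Entropy of the random variable `f`. -/
noncomputable def HH {Ω S : Type} [Fintype Ω] [Fintype S] [DecidableEq S] (p : Ω → ℝ) (f : Ω → S) : ℝ :=
  Ent (law p f)

/-- `p` is a probability vector. -/
def IsLaw {S : Type} [Fintype S] (p : S → ℝ) : Prop := (∀ s, 0 ≤ p s) ∧ ∑ s, p s = 1

/-- Conditional weights given `g = t` (zero if the event has probability zero). -/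
noncomputable def condw {Ω T : Type} [Fintype Ω] [DecidableEq T] (p : Ω → ℝ) (g : Ω → T) (t : T) : Ω → ℝ :=
  fun ω => if g ω = t then p ω / law p g t else 0

/-- Convolution (law of `X + Y`). -/
noncomputable def conv {V : Type} [Fintype V] [AddCommGroup V] (p q : V → ℝ) : V → ℝ :=
  fun v => ∑ u, p u * q (v - u)

/-- Entropic Ruzsa distance in characteristic two. -/
noncomputable def rd {V : Type} [Fintype V] [AddCommGroup V] (p q : V → ℝ) : ℝ :=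
  Ent (conv p q) - (Ent p + Ent q) / 2

/-- The functional to be minimised. -/
noncomputable def tau {V : Type} [Fintype V] [AddCommGroup V] (η : ℝ) (p0 p1 p2 : V → ℝ) : ℝ :=
  rd p1 p2 + η * (rd p0 p1 + rd p0 p2)

/-- `(p1,p2)` minimises `tau`. -/
def IsMin {V : Type} [Fintype V] [AddCommGroup V] (η : ℝ) (p0 p1 p2 : V → ℝ) : Prop :=
  IsLaw p1 ∧ IsLaw p2 ∧ ∀ q1 q2 : V → ℝ, IsLaw q1 → IsLaw q2 → tau η p0 p1 p2 ≤ tau η p0 q1 q2

/-- Four independent variables `(X1, X1', X2, X2')`. -/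
noncomputable def quad {V : Type} (p1 p2 : V → ℝ) : V × V × V × V → ℝ :=
  fun ω => p1 ω.1 * p1 ω.2.1 * p2 ω.2.2.1 * p2 ω.2.2.2

/-- `U = X1 + X2` -/
def vU {V : Type} [AddCommGroup V] (ω : V × V × V × V) : V := ω.1 + ω.2.2.1
/-- `V = X1' + X2` -/
def vV {V : Type} [AddCommGroup V] (ω : V × V × V × V) : V := ω.2.1 + ω.2.2.1
/-- `W = X1 + X1'` -/
def vW {V : Type} [AddCommGroup V] (ω : V × V × V × V) : V := ω.1 + ω.2.1
/-- `S = X1 + X1' + X2 + X2'` -/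
def vS {V : Type} [AddCommGroup V] (ω : V × V × V × V) : V := ω.1 + ω.2.1 + ω.2.2.1 + ω.2.2.2

/-- Uniform law on a set. -/
noncomputable def unif {V : Type} [Fintype V] (A : Set V) : V → ℝ :=
  fun v => by classical exact if v ∈ A then ((A.ncard : ℝ))⁻¹ else 0

end Pool.Agent.PFRTF
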