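import Pool.Agent.PFRTF.Defs

/-!
# MP_86f7a7_co / S09898 : exact statements of all modules
Each module file proves one or several of these `Stmt_*`, as
`theorem X_proof : Stmt_X := by unfold Stmt_X; ...` (it may take other `Stmt_*` as hypotheses where said).
Proofs on paper: `/team-store/MP_86f7a7_co_PROOF.md`.
-/

set_option autoImplicit false

namespace Pool.Agent.PFRTF

open scoped BigOperators Pointwise
open Module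

/-! ## Block P : PFR over F_2 (entropic, crude constants) -/

/-- P-a (Toolkit.lean), submodularity. -/
def Stmt_submod : Prop :=
  ∀ (Ω S1 S2 S3 : Type) [Fintype Ω] [Fintype S1] [Fintype S2] [Fintype S3]
    [DecidableEq S1] [DecidableEq S2] [DecidableEq S3]
    (p : Ω → ℝ) (f : Ω → S1) (g : Ω → S2) (h : Ω → S3), IsLaw p →
    HH p (fun ω => (f ω, g ω, h ω)) + HH p h ≤ HH p (fun ω => (f ω, h ω)) + HH p (fun ω => (g ω, h ω))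

/-- P-a, monotonicity (in particular: `f`,`g` determine each other ⇒ equal entropy). -/
def Stmt_hmono : Prop :=
  ∀ (Ω S1 S2 : Type) [Fintype Ω] [Fintype S1] [Fintype S2] [DecidableEq S1] [DecidableEq S2]
    (p : Ω → ℝ) (f : Ω → S1) (g : Ω → S2), IsLaw p →
    (∀ ω ω', f ω = f ω' → g ω = g ω') → HH p g ≤ HH p f

/-- P-a, independent pair. -/
def Stmt_indep : Prop :=
  ∀ (Ω S1 S2 : Type) [Fintype Ω] [Fintype S1] [Fintype S2] [DecidableEq S1] [DecidableEq S2]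
    (p : Ω → ℝ) (f : Ω → S1) (g : Ω → S2), IsLaw p →
    (∀ s t, law p (fun ω => (f ω, g ω)) (s, t) = law p f s * law p g t) →
    HH p (fun ω => (f ω, g ω)) = HH p f + HH p g

/-- P-a, chain rule. -/
def Stmt_chain : Prop :=
  ∀ (Ω S1 S2 : Type) [Fintype Ω] [Fintype S1] [Fintype S2] [DecidableEq S1] [DecidableEq S2]
    (p : Ω → ℝ) (f : Ω → S1) (g : Ω → S2), IsLaw p →
    HH p (fun ω => (f ω, g ω)) = HH p g + ∑ t, law p g t * HH (condw p g t) f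

/-- P-a, concavity of entropy. -/
def Stmt_concave : Prop :=
  ∀ (T S : Type) [Fintype T] [Fintype S] (w : T → ℝ) (q : T → S → ℝ), IsLaw w →
    (∀ t s, 0 ≤ q t s) → ∑ t, w t * Ent (q t) ≤ Ent (fun s => ∑ t, w t * q t s)

/-- P-b1 (`Decr1.lean`), consequences of minimality (may assume the P-a statements). -/
def Stmt_m12 : Prop :=
  ∀ (V : Type) [Fintype V] [AddCommGroup V] [DecidableEq V], (∀ x : V, x + x = 0) →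
    ∀ (p0 p1 p2 : V → ℝ), IsLaw p0 → IsMin (1 / 16) p0 p1 p2 →
      -- I[U:V|S] ≥ 0
      (HH (quad p1 p2) (fun ω => (vU ω, vV ω, vS ω)) + HH (quad p1 p2) vS ≤ 4 * Ent (conv p1 p2)) ∧
      -- (m1)
      (Ent (conv p1 p2) + Ent p1 + Ent p2 + (1 - 1 / 16) * rd p1 p2
        ≤ HH (quad p1 p2) (fun ω => (vU ω, vV ω, vS ω))) ∧
      -- (m2)
      (rd p1 p2 - (1 / 16) / 2 * ((Ent (conv p1 p1) - Ent p1) + (Ent (conv p2 p2) - Ent p2))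
        ≤ HH (quad p1 p2) vS - (Ent (conv p1 p1) + Ent (conv p2 p2)) / 2)

/-- P-b2 (`Decr2.lean`), the BSG step, (may assume the P-a statements). With `I1 = I[U:V|S]`,
`D = d[X1;X1'] + d[X2;X2']`, `IT = I[U : (W,S)]`. -/
def Stmt_m3 : Prop :=
  ∀ (V : Type) [Fintype V] [AddCommGroup V] [DecidableEq V], (∀ x : V, x + x = 0) →
    ∀ (p0 p1 p2 : V → ℝ), IsLaw p0 → IsMin (1 / 16) p0 p1 p2 →
      ∀ I1 D IT : ℝ,
      I1 = 4 * Ent (conv p1 p2) - HH (quad p1 p2) (fun ω => (vU ω, vV ω, vS ω)) - HH (quad p1 p2) vS →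
      D = Ent (conv p1 p1) + Ent (conv p2 p2) - Ent p1 - Ent p2 →
      IT = D + Ent p1 + Ent p2 - 3 * Ent (conv p1 p2) + HH (quad p1 p2) vS + I1 →
      rd p1 p2 ≤ (3 * I1 + 2 * D - 4 * rd p1 p2) + (1 / 16) * (rd p1 p2 + IT)

/-- P-c (`Minim.lean`), existence of a minimiser (compactness). -/
def Stmt_min : Prop :=
  ∀ (V : Type) [Fintype V] [AddCommGroup V] (p0 : V → ℝ), IsLaw p0 →
    ∃ p1 p2 : V → ℝ, IsMin (1 / 16) p0 p1 p2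

/-- P-d (`Coset.lean`), distance zero forces a coset (may assume the P-a statements). -/
def Stmt_coset : Prop :=
  ∀ (V : Type) [Fintype V] [AddCommGroup V] [DecidableEq V], (∀ x : V, x + x = 0) →
    ∀ (p1 p2 : V → ℝ), IsLaw p1 → IsLaw p2 → rd p1 p2 ≤ 0 →
      ∃ (H : AddSubgroup V) (x : V), p1 = unif {v : V | v - x ∈ H}

/-- P-e (`SetForm.lean`), from a coset at bounded distance to a covering (may assume the P-a statements). -/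
def Stmt_setform : Prop :=
  ∀ (V : Type) [Fintype V] [AddCommGroup V] [DecidableEq V], (∀ x : V, x + x = 0) →
    ∀ (A : Set V) (K : ℝ), A.Nonempty → ((A + A).ncard : ℝ) ≤ K * A.ncard →
      ∀ (H : AddSubgroup V) (x : V), rd (unif A) (unif {v : V | v - x ∈ H}) ≤ 9 * Real.log K →
      ∃ (H' : AddSubgroup V) (c : Set V), Nat.card H' ≤ A.ncard ∧ (c.ncard : ℝ) ≤ 2 * K ^ 19 ∧
        ∀ a ∈ A, ∃ y ∈ c, a - y ∈ H'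

/-- P-f: Marton's conjecture in characteristic 2 (crude constants). Follows from the previous ones. -/
def Stmt_PFR2 : Prop :=
  ∀ (V : Type) [AddCommGroup V] [Finite V], (∀ x : V, x + x = 0) →
    ∀ (A : Set V) (K : ℝ), A.Nonempty → ((A + A).ncard : ℝ) ≤ K * A.ncard →
      ∃ (H : AddSubgroup V) (c : Set V), Nat.card H ≤ A.ncard ∧ (c.ncard : ℝ) ≤ 2 * K ^ 19 ∧
        ∀ a ∈ A, ∃ y ∈ c, a - y ∈ H

/-! ## Block L : the random lattice -/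

/-- L-a1 (`CardKer.lean`). -/
def Stmt_cardker : Prop :=
  ∀ (n d p : ℕ) [Fact p.Prime] (y : Fin d → (Fin n → ℤ)),
    LinearIndependent (ZMod p) (fun i => (fun j => ((y i j : ℤ) : ZMod p))) →
    Nat.card {a : Fin n → ZMod p // ∀ i, y i ∈ Lam n p a} * p ^ d = p ^ n

/-- L-a2 (`CardKer.lean`). -/
def Stmt_minor : Prop :=
  ∀ (n d p B : ℕ) [Fact p.Prime] (y : Fin d → (Fin n → ℤ)), LinearIndependent ℤ y →
    (∀ i j, |y i j| ≤ (B : ℤ)) → d.factorial * B ^ d < p →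
    LinearIndependent (ZMod p) (fun i => (fun j => ((y i j : ℤ) : ZMod p)))

/-- coercion of an integer vector to Euclidean space -/
noncomputable def toE {n : ℕ} (x : Fin n → ℤ) : EuclideanSpace ℝ (Fin n) :=
  WithLp.toLp 2 (fun i => (x i : ℝ))

/-- L-b1 (`GaussSum.lean`): Gaussian sum over the lattice generated by `v`, with
`τ i = dist (v i, span (v j : j < i))`. -/
def Stmt_gauss : Prop :=
  ∀ (N d : ℕ) (v : Fin d → EuclideanSpace ℝ (Fin N)) (x0 : EuclideanSpace ℝ (Fin N)),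
    LinearIndependent ℝ v → ∀ C : Finset (Fin d → ℤ),
    ∑ c ∈ C, Real.exp (-(Real.pi * ‖x0 + ∑ i, (c i : ℝ) • v i‖ ^ 2)) ≤
      ∏ i, (1 + 1 / Metric.infDist (v i) (Submodule.span ℝ (v '' {j | j < i}) : Set (EuclideanSpace ℝ (Fin N))))

/-- L-b2 (`Near.lean`): integer points near a subspace. -/
def Stmt_near : Prop :=
  ∀ (n : ℕ) (W : Submodule ℝ (EuclideanSpace ℝ (Fin n))) (X t : ℝ), 0 < n → Real.sqrt n ≤ t → t ≤ X →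
    ∀ S : Finset (Fin n → ℤ),
    (∀ y ∈ S, ‖toE y‖ ≤ X ∧ Metric.infDist (toE y) (W : Set (EuclideanSpace ℝ (Fin n))) ≤ t) →
    (S.card : ℝ) ≤ (2 ^ 11 : ℝ) ^ n * (X / Real.sqrt n) ^ (finrank ℝ W)
      * (t / Real.sqrt n) ^ (n - finrank ℝ W)

/-- L-c (`GoodP1.lean`): (P1) fails for at most 1/8 of the `a`. -/
def Stmt_P1 : Prop :=
  ∀ n : ℕ, 3 ≤ n → ∃ m0 : ℕ, ∀ m, m0 ≤ m → ∀ p : ℕ, p.Prime → m ^ n < p →
    8 * Nat.card {a : Fin n → ZMod p // ¬ P1 n m (Lam n p a)} ≤ p ^ n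

/-- L-d (`GoodP2.lean`): (P2) fails for at most 1/4 of the `a`. -/
def Stmt_P2 : Prop :=
  ∀ (β R1 n sq : ℕ), 1 ≤ β → n = 256 * β → sq * sq = n → 1 ≤ R1 →
    ∃ m0 : ℕ, ∀ m, m0 ≤ m → ∀ p : ℕ, p.Prime → m ^ n < p →
      4 * Nat.card {a : Fin n → ZMod p //
        ¬ P2 n m R1 sq (2 * β) ((2 ^ 14 * R1) ^ (256 * n)) (Lam n p a)} ≤ p ^ n

/-- L-e (`GoodP3.lean`): (P3) fails for at most 1/8 of the `a`. -/
def Stmt_P3 : Prop :=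
  ∀ (n k E1 R1 I0 : ℕ), 1 ≤ n → 1 ≤ R1 →
    8 * n * (2 * E1 + 1) ^ (k * n) * (2 * R1 + 1) ^ (n * n) ≤ I0 ^ n →
    ∃ m0 : ℕ, ∀ m, m0 ≤ m → ∀ p : ℕ, p.Prime → m ^ n < p →
      8 * Nat.card {a : Fin n → ZMod p // ¬ P3 n k m E1 R1 I0 (Lam n p a)} ≤ p ^ n

/-- L-s (`Satur.lean`): index of `span z` in its saturation. -/
def Stmt_satur : Prop :=
  ∀ (k d T : ℕ) (z : Fin d → (Fin k → ℤ)), LinearIndependent ℤ z → (∀ i j, |z i j| ≤ (T : ℤ)) →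
    ∀ S : Finset (Fin k → ℤ), (∀ x ∈ S, x ∈ satur (Submodule.span ℤ (Set.range z))) →
      (∀ x ∈ S, ∀ y ∈ S, x - y ∈ Submodule.span ℤ (Set.range z) → x = y) →
      S.card ≤ d.factorial * T ^ d

/-! ## Block A : packing, Brunn–Minkowski, Step A -/

/-- A-1 (`Pack.lean`): packing. -/
def Stmt_pack : Prop :=
  ∀ (n m : ℕ) (Λ : Submodule ℤ (Fin n → ℤ)) (T : ℝ) (W : Submodule ℝ (Fin n → ℝ))
    (S : Finset (Fin n → ℤ)), 0 < m → 0 ≤ T → P1 n m Λ →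
    (∀ x ∈ S, ∀ y ∈ S, x - y ∈ Λ ∧ (fun i => ((x i - y i : ℤ) : ℝ)) ∈ W ∧
      ∀ i, ((|x i - y i| : ℤ) : ℝ) ≤ T * m) →
    (S.card : ℝ) ≤ (1 + 20 * T) ^ (finrank ℝ W)

/-- subset sums of a family -/
def fsum {G ι : Type} [AddCommGroup G] (b : ι → G) : Set G :=
  Set.range (fun T : Finset ι => ∑ i ∈ T, b i)

/-- A-2 (`BM.lean`): discrete Brunn–Minkowski for a cube. -/
def Stmt_BM : Prop :=
  ∀ (G : Type) [AddCommGroup G] (r : ℕ) (b : Fin r → G), 0 < r → LinearIndependent ℤ b →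
    ∀ (X : Set G) (s : ℕ), X.Finite → X.Nonempty → s ^ r ≤ X.ncard →
      (s + 1) ^ r ≤ (X + fsum b).ncard

/-- A-3 (`StepA.lean`; may assume `Stmt_pack`, `Stmt_BM`). -/
def Stmt_A : Prop :=
  ∀ (n m M κ r k : ℕ) (Λ : Submodule ℤ (Fin n → ℤ)), 0 < m → 0 < r → P1 n m Λ →
    (∀ q : ℕ, (q + 1) ^ r ≤ 2 ^ (κ * n) * (1 + 80 * M) ^ n → q * r ≤ k) →
    ∀ (A P : Set Λ) (d : ℕ) (a : Λ) (v : Fin d → Λ) (N : Fin d → ℕ),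
      A = {x : Λ | ∀ i, |(x : Fin n → ℤ) i| ≤ ((2 * M * m : ℕ) : ℤ)} →
      P = {x : Λ | ∃ c : Fin d → ℕ, (∀ i, c i < N i) ∧ x = a + ∑ i, c i • v i} →
      P.ncard ≤ 2 ^ (κ * n) * A.ncard → A.ncard ≤ 2 ^ (κ * n) * (A ∩ P).ncard →
      ∃ (w : (Fin k → ℤ) →ₗ[ℤ] (Fin n → ℤ)) (X : Finset (Fin k → ℤ)),
        (∀ x, w x ∈ Λ) ∧ (∀ x ∈ X, ∀ i, 0 ≤ x i ∧ x i ≤ 1) ∧
        (∀ x ∈ X, ∀ y ∈ X, w x = w y → x = y) ∧
        (∀ x ∈ X, ∀ y ∈ X, ∀ j, |w x j - w y j| ≤ ((4 * M * m : ℕ) : ℤ)) ∧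
        A.ncard ≤ 2 ^ (3 * κ * n) * (1 + 80 * M) ^ r * X.card

/-- A-4 (`Doubling.lean`): size and doubling of `A`. -/
def Stmt_E1 : Prop :=
  ∀ (n m M p : ℕ) (a : Fin n → ZMod p), 0 < n → 0 < m → 0 < M → 0 < p → p ≤ 2 * m ^ n →
    ∀ A : Set (Lam n p a), A = {x : Lam n p a | ∀ i, |(x : Fin n → ℤ) i| ≤ ((2 * M * m : ℕ) : ℤ)} →
      A.Finite ∧ A.Nonempty ∧ M ^ n ≤ A.ncard ∧ (A + A).ncard ≤ 5 ^ n * A.ncard

/-! ## Block B : digits -/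

/-- B-0 (`Digit.lean`): digit sums are injective. -/
def Stmt_digit : Prop :=
  ∀ (M : Type) [AddCommGroup M] [Module ℤ M] [NoZeroSMulDivisors ℤ M] (G : Submodule ℤ M)
    (D : Finset M), (∀ x ∈ D, x ∈ G) → Inc2 G D →
    ∀ (L : ℕ) (f g : Fin L → M), (∀ l, f l ∈ D) → (∀ l, g l ∈ D) →
      dsum f = dsum g → f = g

/-- B-1 (`StepB.lean`; may assume `Stmt_pack`, `Stmt_digit`). -/
def Stmt_B : Prop :=
  ∀ (n m k r0 N0 : ℕ) (Λ : Submodule ℤ (Fin n → ℤ)) (w : (Fin k → ℤ) →ₗ[ℤ] (Fin n → ℤ))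
    (X : Finset (Fin k → ℤ)), 0 < m → P1 n m Λ → (∀ x, w x ∈ Λ) →
    (∀ x ∈ X, ∀ i, 0 ≤ x i ∧ x i ≤ 1) → (∀ x ∈ X, ∀ y ∈ X, w x = w y → x = y) →
    (∀ x ∈ X, ∀ y ∈ X, ∀ j, |w x j - w y j| ≤ ((4 * 2 ^ r0 * m : ℕ) : ℤ)) →
    0 < N0 → (N0 - 1) ^ r0 * 81 ^ n < X.card →
    ∃ E : Finset (Fin k → ℤ), N0 ≤ E.card ∧ (∀ x ∈ E, ∀ i, |x i| ≤ 1) ∧
      (∀ x ∈ E, ∀ j, |w x j| ≤ ((4 * 2 ^ r0 * m : ℕ) : ℤ)) ∧
      ∀ (L : ℕ) (f g : Fin L → (Fin k → ℤ)), (∀ l, f l ∈ E) → (∀ l, g l ∈ E) →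
        w (dsum f) = w (dsum g) → f = g

/-! ## Block C : the chain -/

/-- Standing hypotheses on the scales. -/
def Scales {k : ℕ} (Ys : ℕ → Set (Fin k → ℤ)) : Prop :=
  (∀ i, (Ys i).Finite) ∧ (∀ i, (0 : Fin k → ℤ) ∈ Ys i) ∧ (∀ i, ∀ x ∈ Ys i, -x ∈ Ys i) ∧
    (∀ i, ∀ x ∈ Ys i, ∀ y ∈ Ys i, x + y ∈ Ys (i + 1))

/-- Density of `G` at scale `Ys I`, up to `2^e`. -/
def Dense {k : ℕ} (Z : Set (Fin k → ℤ)) (G : Submodule ℤ (Fin k → ℤ)) (e : ℕ) : Prop :=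
  ∃ D : Finset (Fin k → ℤ), (∀ x ∈ D, x ∈ G ∧ x ∈ Z) ∧ Inc2 G D ∧ 2 ^ (finrank ℤ G - e) ≤ D.card

/-- C-1 (`ChainStep.lean`; may assume `Stmt_PFR2`). -/
def Stmt_C1 : Prop :=
  ∀ (k I s e : ℕ) (G : Submodule ℤ (Fin k → ℤ)) (Ys : ℕ → Set (Fin k → ℤ)) (X : Finset (Fin k → ℤ)),
    Scales Ys → X.Nonempty → (∀ x ∈ X, ∀ y ∈ X, x - y ∈ G ∧ x - y ∈ Ys 0) → finrank ℤ G ≤ s * I →
    Dense (Ys I) G e ∨
    ∃ G' : Submodule ℤ (Fin k → ℤ), G' ≤ G ∧ (∀ g ∈ G, (2 : ℤ) • g ∈ G') ∧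
      (∀ S : Finset (Fin k → ℤ), (∀ x ∈ S, x ∈ G') → Inc2 G S → S.card ≤ 2 ^ (finrank ℤ G - e)) ∧
      ∃ X' ⊆ X, X'.Nonempty ∧ X.card ≤ 2 ^ (19 * s + 1) * X'.card ∧ ∀ x ∈ X', ∀ y ∈ X', x - y ∈ G'

/-- C-2 (`ChainStage.lean`; may assume `Stmt_C1`, `Stmt_satur`). -/
def Stmt_C2 : Prop :=
  ∀ (k I s e J T0 : ℕ) (G : Submodule ℤ (Fin k → ℤ)) (Ys : ℕ → Set (Fin k → ℤ))
    (X : Finset (Fin k → ℤ)),
    Scales Ys → (∀ x ∈ Ys 0, ∀ i, |x i| ≤ (T0 : ℤ)) → 1 ≤ T0 → k.factorial * T0 ^ k < 2 ^ (J * e) →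
    X.Nonempty → (∀ x ∈ X, ∀ y ∈ X, x - y ∈ G ∧ x - y ∈ Ys 0) → finrank ℤ G ≤ s * I →
    ∃ G' : Submodule ℤ (Fin k → ℤ), ∃ X' ⊆ X, X'.Nonempty ∧
      X.card ≤ 2 ^ (J * (19 * s + 1)) * X'.card ∧ (∀ x ∈ X', ∀ y ∈ X', x - y ∈ G') ∧
      (Dense (Ys I) G' (2 * e) ∨ finrank ℤ G' + e ≤ finrank ℤ G)

/-- C-3 (`ChainMain.lean`; may assume `Stmt_C2`). -/
def Stmt_C3 : Prop :=
  ∀ (k I s e J T0 R : ℕ) (Ys : ℕ → Set (Fin k → ℤ)) (X : Finset (Fin k → ℤ)),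
    Scales Ys → (∀ x ∈ Ys 0, ∀ i, |x i| ≤ (T0 : ℤ)) → 1 ≤ T0 → k.factorial * T0 ^ k < 2 ^ (J * e) →
    X.Nonempty → (∀ x ∈ X, ∀ y ∈ X, x - y ∈ Ys 0) → k ≤ s * I → k ≤ R * e →
    ∃ G' : Submodule ℤ (Fin k → ℤ), ∃ X' ⊆ X, X'.Nonempty ∧
      X.card ≤ 2 ^ ((R + 1) * (J * (19 * s + 1))) * X'.card ∧ (∀ x ∈ X', ∀ y ∈ X', x - y ∈ G') ∧
      Dense (Ys I) G' (2 * e)

/-! ## Block D : restriction of formal coordinates and the contradiction -/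

/-- D-1 (`Coords.lean`). -/
def Stmt_D1 : Prop :=
  ∀ (n k h : ℕ) (w : (Fin k → ℤ) →ₗ[ℤ] (Fin n → ℤ)) (G : Submodule ℤ (Fin k → ℤ)), h ≤ n →
    ∃ Jc : Finset (Fin k), Jc.card + finrank ℤ (G.map w) ≤ finrank ℤ G + h ∧
      (∀ g ∈ G, (∀ j ∈ Jc, g j = 0) → w g = 0 → g = 0) ∧
      (∀ (d : ℕ) (z : Fin d → (Fin k → ℤ)), LinearIndependent ℤ z →
        (∀ i, z i ∈ G ∧ ∀ j ∈ Jc, z i j = 0) → d + h ≤ n)

/-- D-2 (`Fibre.lean`; may assume `Stmt_digit`). -/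
def Stmt_D2 : Prop :=
  ∀ (k L t : ℕ) (G : Submodule ℤ (Fin k → ℤ)) (D : Finset (Fin k → ℤ)) (Jc : Finset (Fin k)),
    (∀ x ∈ D, x ∈ G) → (∀ x ∈ D, ∀ i, |x i| ≤ (t : ℤ)) → Inc2 G D →
    ∃ P : Finset (Fin k → ℤ),
      (∀ x ∈ P, ∃ f : Fin L → (Fin k → ℤ), (∀ l, f l ∈ D) ∧ x = dsum f) ∧
      (∀ x ∈ P, ∀ y ∈ P, ∀ j ∈ Jc, x j = y j) ∧
      D.card ^ L ≤ (2 ^ (L + 1) * t + 1) ^ Jc.card * P.card

/-- D-3 (`Final.lean`; may assume `Stmt_digit`). `B = 4*M*m`, `E1 = 2^(L+1)*t`, `R1 = 4*M*E1`,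
`sq = 2^(q*L)`. -/
def Stmt_D3 : Prop :=
  ∀ (n k m M L t q h N1 I0 : ℕ) (Λ : Submodule ℤ (Fin n → ℤ))
    (w : (Fin k → ℤ) →ₗ[ℤ] (Fin n → ℤ)) (G : Submodule ℤ (Fin k → ℤ)) (D P : Finset (Fin k → ℤ))
    (Jc : Finset (Fin k)), 0 < h → 0 < q →
    P2 n m (4 * M * (2 ^ (L + 1) * t)) (2 ^ (q * L)) h N1 Λ →
    P3 n k m (2 ^ (L + 1) * t) (4 * M * (2 ^ (L + 1) * t)) I0 Λ →
    (∀ x, w x ∈ Λ) → (∀ x ∈ D, x ∈ G) → (∀ x ∈ D, x ∈ YY w (4 * M * m) t) → Inc2 G D →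
    (∀ g ∈ G, (∀ j ∈ Jc, g j = 0) → w g = 0 → g = 0) →
    (∀ (d : ℕ) (z : Fin d → (Fin k → ℤ)), LinearIndependent ℤ z →
        (∀ i, z i ∈ G ∧ ∀ j ∈ Jc, z i j = 0) → d + h ≤ n) →
    (∀ x ∈ P, ∃ f : Fin L → (Fin k → ℤ), (∀ l, f l ∈ D) ∧ x = dsum f) →
    (∀ x ∈ P, ∀ y ∈ P, ∀ j ∈ Jc, x j = y j) →
    P.card ^ q ≤ N1 * I0

end Pool.Agent.PFRTF
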